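import Pool.Agent.Run7.h684.SO.Asm
import Pool.Agent.Run7.h192.SO.LOG
import Pool.Agent.Run7.h313.SO.ORD
import Pool.Agent.Run7.h313.SO.BES
import Pool.Agent.Run7.h67.SO.ZET
import Pool.Agent.Run7.h67.SO.TAU
import Pool.Agent.Run7.h569.SO.ABL

/-!
# All the pieces
-/

set_option autoImplicit false

namespace Run7.h684.SO

theorem pcs : Pcs where
  log := Run7.h192.SO.t_LOG
  ord := t_ORD
  zet := Pool.Agent.Run7.h67.SO.t_ZET Run7.h192.SO.t_LOG
  tau := Pool.Agent.Run7.h67.SO.t_TAU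
  abl := Run7.h569.SO.t_ABL
  bes := t_BES

end Run7.h684.SO
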