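import Pool.Agent.Run7.h684.SO.Def

/-!
# Assembly: the Bessel inequality on the line `Re s = 1` and the criterion
-/

set_option autoImplicit false

open Complex Filter Topology

namespace Run7.h684.SO

noncomputable section

/-- the pieces -/
structure Pcs : Prop where
  log : S_LOG
  ord : S_ORD
  zet : S_ZET
  tau : S_TAU
  abl : S_ABL
  bes : S_BES

/-- the analytic data -/
structure An (a b : ℕ → ℂ) (F : ℂ → ℂ) : Prop where
  eul : Eul a b F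
  mer : ∀ t : ℝ, MeromorphicAt F (pt 0 t)
  con : ∀ δ t : ℝ, 0 < δ → ContinuousAt F (pt δ t)
  sq : Sm (fun p => ‖a p‖ ^ 2)

/-- the order -/
def od (F : ℂ → ℂ) (t : ℝ) : ℤ := (meromorphicOrderAt F (pt 0 t)).untop₀

variable {a b : ℕ → ℂ} {F : ℂ → ℂ}

theorem pt_sub (δ t : ℝ) : pt δ t - pt 0 t = (δ : ℂ) := by
  unfold pt
  push_cast
  ring

theorem pt_tendsto (t : ℝ) : Tendsto (fun δ : ℝ => pt δ t) (𝓝[>] 0) (𝓝[≠] (pt 0 t)) := by
  rw [tendsto_nhdsWithin_iff]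
  constructor
  · have h : Continuous (fun δ : ℝ => pt δ t) := by
      unfold pt
      fun_prop
    exact (h.tendsto 0).mono_left nhdsWithin_le_nhds
  · filter_upwards [self_mem_nhdsWithin] with δ hδ
    intro h
    have h1 := pt_sub δ t
    rw [Set.mem_singleton_iff] at h
    rw [h, sub_self] at h1
    have h2 : (δ : ℝ) = 0 := by exact_mod_cast h1.symm
    exact (ne_of_gt hδ) h2

theorem od_spec (hp : Pcs) (h : An a b F) (t : ℝ) : meromorphicOrderAt F (pt 0 t) = (od F t : ℤ) := by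
  unfold od
  rw [WithTop.coe_untop₀_of_ne_top]
  intro htop
  rw [meromorphicOrderAt_eq_top_iff] at htop
  have h1 := (pt_tendsto t).eventually htop
  obtain ⟨δ, hδ, h2⟩ := (h1.and (self_mem_nhdsWithin)).exists
  obtain ⟨_, C, hC⟩ := hp.log a b F h.eul
  exact (hC δ t h2).1 hδ

theorem ps_ord (hp : Pcs) (h : An a b F) (t : ℝ) : ∃ C : ℝ, ∀ δ : ℝ, 0 < δ → δ ≤ 1 →
    |PS a δ t - od F t * Real.log δ| ≤ C := by
  obtain ⟨_, C, hC⟩ := hp.log a b F h.eul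
  obtain ⟨C', hC'⟩ := hp.ord F t (od F t) (h.mer t) (od_spec hp h t) (fun δ hδ => (hC δ t hδ).1)
    (fun δ hδ => h.con δ t hδ)
  refine ⟨C + C', fun δ hδ hδ1 => ?_⟩
  have h1 := (hC δ t hδ).2
  have h2 := hC' δ hδ hδ1
  rw [abs_le] at h1 h2 ⊢
  constructor <;> linarith [h1.1, h1.2, h2.1, h2.2]

/-- a finite sum of bounded terms -/
theorem sum_bdd {ι : Type*} (J : Finset ι) (f : ι → ℝ → ℝ)
    (h : ∀ i ∈ J, ∃ C : ℝ, ∀ δ : ℝ, 0 < δ → δ ≤ 1 → |f i δ| ≤ C) :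
    ∃ C : ℝ, ∀ δ : ℝ, 0 < δ → δ ≤ 1 → |∑ i ∈ J, f i δ| ≤ C := by
  classical
  induction J using Finset.induction_on with
  | empty => exact ⟨0, fun δ _ _ => by simp⟩
  | insert i J hi ih =>
    obtain ⟨C1, h1⟩ := h i (Finset.mem_insert_self i J)
    obtain ⟨C2, h2⟩ := ih fun j hj => h j (Finset.mem_insert_of_mem hj)
    refine ⟨C1 + C2, fun δ hδ hδ1 => ?_⟩
    rw [Finset.sum_insert hi]
    exact (abs_add_le _ _).trans (add_le_add (h1 δ hδ hδ1) (h2 δ hδ hδ1))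

/-- the deviation -/
def dev (a : ℕ → ℂ) (F : ℂ → ℂ) (J : Finset ℝ) (p : ℕ) : ℝ :=
  ‖a p + ∑ t ∈ J, (od F t : ℂ) * (p : ℂ) ^ ((t : ℂ) * I)‖ ^ 2

/-- the sum of the squares of the orders -/
def Nt (F : ℂ → ℂ) (J : Finset ℝ) : ℝ := ∑ t ∈ J, (od F t : ℝ) ^ 2

theorem sm_norm (hp : Pcs) (h : An a b F) : Sm (fun p => ‖a p‖) := (hp.log a b F h.eul).1

theorem main_id (hp : Pcs) (h : An a b F) (J : Finset ℝ) : ∃ C : ℝ, ∀ δ : ℝ, 0 < δ → δ ≤ 1 →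
    |Lw (dev a F J) δ - (Lw (fun p => ‖a p‖ ^ 2) δ + Nt F J * Real.log δ)| ≤ C := by
  classical
  obtain ⟨hz0, hz1, hz2⟩ := hp.zet
  obtain ⟨_, hb⟩ := hp.bes hz0 a J (od F) h.sq (sm_norm hp h)
  -- the first sum
  have k1 : ∃ C : ℝ, ∀ δ : ℝ, 0 < δ → δ ≤ 1 →
      |∑ t ∈ J, ((od F t : ℝ) * PS a δ t - (od F t : ℝ) ^ 2 * Real.log δ)| ≤ C := by
    refine sum_bdd J _ fun t _ => ?_
    obtain ⟨C, hC⟩ := ps_ord hp h t
    refine ⟨|(od F t : ℝ)| * C, fun δ hδ hδ1 => ?_⟩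
    have e1 : (od F t : ℝ) * PS a δ t - (od F t : ℝ) ^ 2 * Real.log δ =
        (od F t : ℝ) * (PS a δ t - od F t * Real.log δ) := by ring
    rw [e1, abs_mul]
    exact mul_le_mul_of_nonneg_left (hC δ hδ hδ1) (abs_nonneg _)
  -- the double sum
  have k2 : ∃ C : ℝ, ∀ δ : ℝ, 0 < δ → δ ≤ 1 →
      |∑ t ∈ J, (∑ u ∈ J, (od F t : ℝ) * (od F u : ℝ) * PS one δ (t - u) + (od F t : ℝ) ^ 2 * Real.log δ)| ≤ C := by
    refine sum_bdd J _ fun t ht => ?_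
    have k3 : ∃ C : ℝ, ∀ δ : ℝ, 0 < δ → δ ≤ 1 →
        |∑ u ∈ J, ((od F t : ℝ) * (od F u : ℝ) * PS one δ (t - u) +
          if u = t then (od F t : ℝ) ^ 2 * Real.log δ else 0)| ≤ C := by
      refine sum_bdd J _ fun u _ => ?_
      by_cases hut : u = t
      · obtain ⟨C, hC⟩ := hz1
        refine ⟨(od F t : ℝ) ^ 2 * C, fun δ hδ hδ1 => ?_⟩
        rw [if_pos hut, hut, sub_self]
        have e1 : (od F t : ℝ) * (od F t : ℝ) * PS one δ 0 + (od F t : ℝ) ^ 2 * Real.log δ =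
            (od F t : ℝ) ^ 2 * (PS one δ 0 + Real.log δ) := by ring
        rw [e1, abs_mul, abs_of_nonneg (sq_nonneg (od F t : ℝ))]
        exact mul_le_mul_of_nonneg_left (hC δ hδ hδ1) (sq_nonneg _)
      · obtain ⟨C, hC⟩ := hz2 (t - u) (fun h0 => hut (by linarith))
        refine ⟨|(od F t : ℝ) * (od F u : ℝ)| * C, fun δ hδ hδ1 => ?_⟩
        rw [if_neg hut, add_zero, abs_mul]
        exact mul_le_mul_of_nonneg_left (hC δ hδ hδ1) (abs_nonneg _)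
    obtain ⟨C, hC⟩ := k3
    refine ⟨C, fun δ hδ hδ1 => ?_⟩
    have h3 := hC δ hδ hδ1
    rw [Finset.sum_add_distrib, Finset.sum_ite_eq' J t, if_pos ht] at h3
    exact h3
  obtain ⟨C1, h1⟩ := k1
  obtain ⟨C2, h2⟩ := k2
  refine ⟨2 * C1 + C2, fun δ hδ hδ1 => ?_⟩
  have e1 := hb δ hδ
  have e2 : Lw (dev a F J) δ = Lw (fun p => ‖a p‖ ^ 2) δ + 2 * ∑ t ∈ J, (od F t : ℝ) * PS a δ t +
      ∑ t ∈ J, ∑ u ∈ J, (od F t : ℝ) * (od F u : ℝ) * PS one δ (t - u) := e1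
  have h3 := h1 δ hδ hδ1
  have h4 := h2 δ hδ hδ1
  rw [Finset.sum_sub_distrib, ← Finset.sum_mul] at h3
  rw [Finset.sum_add_distrib, ← Finset.sum_mul] at h4
  rw [e2]
  unfold Nt
  rw [abs_le] at h3 h4 ⊢
  constructor <;> nlinarith [h3.1, h3.2, h4.1, h4.2]

theorem Lw_nonneg {w : ℕ → ℝ} (h : ∀ n, 0 ≤ w n) (δ : ℝ) : 0 ≤ Lw w δ :=
  tsum_nonneg fun p => mul_nonneg (h p) (Real.rpow_nonneg (Nat.cast_nonneg _) _)

theorem dev_nonneg (J : Finset ℝ) (p : ℕ) : 0 ≤ dev a F J p := by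
  unfold dev
  positivity

theorem one_eq (δ : ℝ) : Lw (fun _ => 1) δ = PS one δ 0 := by
  unfold Lw PS one pt
  refine tsum_congr fun p => ?_
  rw [one_mul, one_mul]
  have h1 : (-(((1 + δ : ℝ) : ℂ) + ((0 : ℝ) : ℂ) * I)) = ((-(1 + δ) : ℝ) : ℂ) := by
    push_cast
    ring
  rw [h1]
  have h2 : (((p : ℕ) : ℂ)) = ((((p : ℕ) : ℝ)) : ℂ) := by push_cast; rfl
  rw [h2, ← Complex.ofReal_cpow (Nat.cast_nonneg _), Complex.ofReal_re]

/-- Mertens -/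
theorem mertens (hp : Pcs) : ∃ C : ℝ, ∀ x : ℝ, 2 ≤ x → |Sw (fun _ => 1) x - Real.log (Real.log x)| ≤ C := by
  obtain ⟨hz0, ⟨C, hC⟩, _⟩ := hp.zet
  refine hp.tau (fun _ => 1) (fun _ => zero_le_one) hz0 ⟨C, fun δ hδ hδ1 => ?_⟩
  rw [one_eq]
  exact hC δ hδ hδ1

theorem Sw_const (κ : ℝ) (x : ℝ) : Sw (fun _ => κ) x = κ * Sw (fun _ => 1) x := by
  unfold Sw
  rw [Finset.mul_sum]
  refine Finset.sum_congr rfl fun p _ => ?_
  ring

theorem Lw_const (κ : ℝ) (δ : ℝ) : Lw (fun _ => κ) δ = κ * Lw (fun _ => 1) δ := by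
  unfold Lw
  rw [← tsum_mul_left]
  refine tsum_congr fun p => ?_
  ring

theorem Sm_const (κ : ℝ) (h : Sm (fun _ => 1)) : Sm (fun _ => κ) := by
  intro δ hδ
  refine ((h δ hδ).mul_left κ).congr fun p => ?_
  ring

/-- from the sums to the series, upper bound -/
theorem up_series (hp : Pcs) {w : ℕ → ℝ} (hw : Sm w) {κ : ℝ}
    (h : ∃ C : ℝ, ∀ x : ℝ, 2 ≤ x → Sw w x ≤ κ * Real.log (Real.log x) + C) :
    ∃ C : ℝ, ∀ δ : ℝ, 0 < δ → δ ≤ 1 → Lw w δ ≤ -(κ * Real.log δ) + C := by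
  obtain ⟨C, hC⟩ := h
  obtain ⟨D, hD⟩ := mertens hp
  obtain ⟨hz0, ⟨E, hE⟩, _⟩ := hp.zet
  have hab : ∃ C : ℝ, ∀ x : ℝ, 2 ≤ x → Sw w x - Sw (fun _ => κ) x ≤ C := by
    refine ⟨C + |κ| * D, fun x hx => ?_⟩
    have h1 := hC x hx
    have h2 := hD x hx
    rw [Sw_const]
    have h3 : |κ * (Sw (fun _ => 1) x - Real.log (Real.log x))| ≤ |κ| * D := by
      rw [abs_mul]
      exact mul_le_mul_of_nonneg_left h2 (abs_nonneg _)
    rw [abs_le] at h3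
    nlinarith [h3.1]
  obtain ⟨B, hB⟩ := hp.abl w (fun _ => κ) hw (Sm_const κ hz0) hab
  refine ⟨B + |κ| * E, fun δ hδ hδ1 => ?_⟩
  have h1 := hB δ hδ
  have h2 := hE δ hδ hδ1
  rw [Lw_const, one_eq] at h1
  have h3 : |κ * (PS one δ 0 + Real.log δ)| ≤ |κ| * E := by
    rw [abs_mul]
    exact mul_le_mul_of_nonneg_left h2 (abs_nonneg _)
  rw [abs_le] at h3
  nlinarith [h3.2]

/-- from the sums to the series, lower bound -/
theorem low_series (hp : Pcs) {w : ℕ → ℝ} (hw : Sm w) {κ : ℝ}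
    (h : ∃ C : ℝ, ∀ x : ℝ, 2 ≤ x → κ * Real.log (Real.log x) - C ≤ Sw w x) :
    ∃ C : ℝ, ∀ δ : ℝ, 0 < δ → δ ≤ 1 → -(κ * Real.log δ) - C ≤ Lw w δ := by
  obtain ⟨C, hC⟩ := h
  obtain ⟨D, hD⟩ := mertens hp
  obtain ⟨hz0, ⟨E, hE⟩, _⟩ := hp.zet
  have hab : ∃ C : ℝ, ∀ x : ℝ, 2 ≤ x → Sw (fun _ => κ) x - Sw w x ≤ C := by
    refine ⟨C + |κ| * D, fun x hx => ?_⟩
    have h1 := hC x hx
    have h2 := hD x hx
    rw [Sw_const]
    have h3 : |κ * (Sw (fun _ => 1) x - Real.log (Real.log x))| ≤ |κ| * D := by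
      rw [abs_mul]
      exact mul_le_mul_of_nonneg_left h2 (abs_nonneg _)
    rw [abs_le] at h3
    nlinarith [h3.2]
  obtain ⟨B, hB⟩ := hp.abl (fun _ => κ) w (Sm_const κ hz0) hw hab
  refine ⟨B + |κ| * E, fun δ hδ hδ1 => ?_⟩
  have h1 := hB δ hδ
  have h2 := hE δ hδ hδ1
  rw [Lw_const, one_eq] at h1
  have h3 : |κ * (PS one δ 0 + Real.log δ)| ≤ |κ| * E := by
    rw [abs_mul]
    exact mul_le_mul_of_nonneg_left h2 (abs_nonneg _)
  rw [abs_le] at h3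
  nlinarith [h3.1]

/-- an upper bound `κ (-log δ) + C` for `N (-log δ)` gives `N ≤ κ` -/
theorem le_of_log {N κ C : ℝ} (h : ∀ δ : ℝ, 0 < δ → δ ≤ 1 → -(N * Real.log δ) ≤ -(κ * Real.log δ) + C) : N ≤ κ := by
  by_contra hcon
  rw [not_le] at hcon
  have hpos : 0 < N - κ := by linarith
  set δ : ℝ := Real.exp (-((|C| + 1) / (N - κ))) with hδ
  have hδ0 : 0 < δ := Real.exp_pos _
  have hδ1 : δ ≤ 1 := by
    rw [hδ, Real.exp_le_one_iff]
    have : 0 ≤ (|C| + 1) / (N - κ) := by positivity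
    linarith
  have h1 := h δ hδ0 hδ1
  rw [hδ, Real.log_exp] at h1
  have h2 : (N - κ) * ((|C| + 1) / (N - κ)) = |C| + 1 := by field_simp
  have h3 := le_abs_self C
  nlinarith

/-- **The Bessel inequality.** -/
theorem bessel (hp : Pcs) (h : An a b F) {κ : ℝ}
    (hS : ∃ C : ℝ, ∀ x : ℝ, 2 ≤ x → Sw (fun p => ‖a p‖ ^ 2) x ≤ κ * Real.log (Real.log x) + C)
    (J : Finset ℝ) : Nt F J ≤ κ := by
  obtain ⟨C1, h1⟩ := up_series hp h.sq hS
  obtain ⟨C2, h2⟩ := main_id hp h J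
  refine le_of_log (C := C1 + C2) fun δ hδ hδ1 => ?_
  have h3 := h1 δ hδ hδ1
  have h4 := h2 δ hδ hδ1
  have h5 := Lw_nonneg (dev_nonneg (a := a) (F := F) J) δ
  rw [abs_le] at h4
  linarith [h4.2]

/-- bounded series of nonnegative terms -/
theorem summable_of_bdd {w : ℕ → ℝ} (h0 : ∀ n, 0 ≤ w n) (hw : Sm w) {C : ℝ}
    (h : ∀ δ : ℝ, 0 < δ → δ ≤ 1 → Lw w δ ≤ C) : Summable (fun p : Nat.Primes => w p / (p : ℕ)) := by
  refine summable_of_sum_le (fun p => div_nonneg (h0 p) (Nat.cast_nonneg _)) (c := C) fun T => ?_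
  have h1 : Tendsto (fun δ : ℝ => ∑ p ∈ T, w p * ((p : ℕ) : ℝ) ^ (-(1 + δ))) (𝓝[>] 0)
      (𝓝 (∑ p ∈ T, w p / (p : ℕ))) := by
    refine tendsto_finsetSum _ fun p _ => ?_
    have hp0 : (0 : ℝ) < ((p : ℕ) : ℝ) := by exact_mod_cast p.2.pos
    have h2 : Continuous (fun δ : ℝ => w p * ((p : ℕ) : ℝ) ^ (-(1 + δ))) := by
      refine continuous_const.mul ?_
      exact Real.continuous_const_rpow hp0.ne' |>.comp (by fun_prop)
    have h3 := (h2.tendsto 0).mono_left (nhdsWithin_le_nhds (s := Set.Ioi 0))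
    have e1 : w p * ((p : ℕ) : ℝ) ^ (-(1 + (0 : ℝ))) = w p / (p : ℕ) := by
      rw [add_zero, Real.rpow_neg_one]
      rfl
    rw [e1] at h3
    exact h3
  refine le_of_tendsto h1 ?_
  have h4 : Set.Ioc (0 : ℝ) 1 ∈ 𝓝[>] (0 : ℝ) := Ioc_mem_nhdsGT one_pos
  filter_upwards [h4] with δ hδ
  refine le_trans ?_ (h δ hδ.1 hδ.2)
  exact (hw δ hδ.1).sum_le_tsum T fun p _ => mul_nonneg (h0 p) (Real.rpow_nonneg (Nat.cast_nonneg _) _)

theorem bdd_of_summable {w : ℕ → ℝ} (h0 : ∀ n, 0 ≤ w n) (h : Summable (fun p : Nat.Primes => w p / (p : ℕ)))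
    {δ : ℝ} (hδ : 0 < δ) : Lw w δ ≤ ∑' p : Nat.Primes, w p / (p : ℕ) := by
  have hle : ∀ p : Nat.Primes, w p * ((p : ℕ) : ℝ) ^ (-(1 + δ)) ≤ w p / (p : ℕ) := by
    intro p
    have hp1 : (1 : ℝ) ≤ ((p : ℕ) : ℝ) := by exact_mod_cast p.2.one_lt.le
    rw [div_eq_mul_inv, ← Real.rpow_neg_one]
    exact mul_le_mul_of_nonneg_left (Real.rpow_le_rpow_of_exponent_le hp1 (by linarith)) (h0 p)
  have hs : Summable (fun p : Nat.Primes => w p * ((p : ℕ) : ℝ) ^ (-(1 + δ))) :=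
    Summable.of_nonneg_of_le (fun p => mul_nonneg (h0 p) (Real.rpow_nonneg (Nat.cast_nonneg _) _)) hle h
  exact hs.tsum_le_tsum hle h

/-- **The equivalence with the series.** -/
theorem series_iff (hp : Pcs) (h : An a b F) :
    (∃ C : ℝ, ∀ x : ℝ, 2 ≤ x → |Sw (fun p => ‖a p‖ ^ 2) x - Real.log (Real.log x)| ≤ C) ↔
      ∃ C : ℝ, ∀ δ : ℝ, 0 < δ → δ ≤ 1 → |Lw (fun p => ‖a p‖ ^ 2) δ + Real.log δ| ≤ C := by
  constructor
  · rintro ⟨C, hC⟩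
    obtain ⟨C1, h1⟩ := up_series hp h.sq (κ := 1) ⟨C, fun x hx => by
      have := (abs_le.1 (hC x hx)).2
      linarith⟩
    obtain ⟨C2, h2⟩ := low_series hp h.sq (κ := 1) ⟨C, fun x hx => by
      have := (abs_le.1 (hC x hx)).1
      linarith⟩
    refine ⟨max C1 C2, fun δ hδ hδ1 => ?_⟩
    have h3 := h1 δ hδ hδ1
    have h4 := h2 δ hδ hδ1
    have h5 := le_max_left C1 C2
    have h6 := le_max_right C1 C2
    rw [abs_le]
    constructor <;> linarith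
  · exact fun hC => hp.tau _ (fun n => by positivity) h.sq hC

/-- **The criterion for functions with a zero or a pole on the line.** -/
theorem criterion (hp : Pcs) (h : An a b F) {t : ℝ} (ht : od F t ≠ 0) :
    (∃ C : ℝ, ∀ x : ℝ, 2 ≤ x → |Sw (fun p => ‖a p‖ ^ 2) x - Real.log (Real.log x)| ≤ C) ↔
      (od F t = 1 ∨ od F t = -1) ∧ Summable (fun p : Nat.Primes => dev a F {t} p / (p : ℕ)) := by
  obtain ⟨hz0, _, _⟩ := hp.zet
  have hsm : Sm (dev a F {t}) := (hp.bes hz0 a {t} (od F) h.sq (sm_norm hp h)).1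
  have hN : Nt F {t} = (od F t : ℝ) ^ 2 := by
    unfold Nt
    rw [Finset.sum_singleton]
  obtain ⟨C2, h2⟩ := main_id hp h {t}
  constructor
  · intro hS
    have hS' : ∃ C : ℝ, ∀ x : ℝ, 2 ≤ x → Sw (fun p => ‖a p‖ ^ 2) x ≤ 1 * Real.log (Real.log x) + C := by
      obtain ⟨C, hC⟩ := hS
      refine ⟨C, fun x hx => ?_⟩
      have := (abs_le.1 (hC x hx)).2
      linarith
    have h1 := bessel hp h hS' {t}
    rw [hN] at h1
    have h3 : (od F t) ^ 2 ≤ 1 := by exact_mod_cast h1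
    have h4 : od F t = 1 ∨ od F t = -1 := by
      have h5 : od F t ≤ 1 := by nlinarith
      have h6 : -1 ≤ od F t := by nlinarith
      omega
    refine ⟨h4, ?_⟩
    have hN1 : Nt F {t} = 1 := by
      rw [hN]
      rcases h4 with h5 | h5 <;> rw [h5] <;> norm_num
    obtain ⟨C1, h5⟩ := up_series hp h.sq hS'
    refine summable_of_bdd (dev_nonneg _) hsm (C := C1 + C2) fun δ hδ hδ1 => ?_
    have h6 := h5 δ hδ hδ1
    have h7 := h2 δ hδ hδ1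
    rw [hN1, abs_le] at h7
    linarith [h7.2]
  · rintro ⟨h4, hs⟩
    have hN1 : Nt F {t} = 1 := by
      rw [hN]
      rcases h4 with h5 | h5 <;> rw [h5] <;> norm_num
    refine (series_iff hp h).2 ⟨C2 + ∑' p : Nat.Primes, dev a F {t} p / (p : ℕ), fun δ hδ hδ1 => ?_⟩
    have h5 := bdd_of_summable (dev_nonneg _) hs hδ
    have h6 := Lw_nonneg (dev_nonneg (a := a) (F := F) {t}) δ
    have h7 := h2 δ hδ hδ1
    rw [hN1, abs_le] at h7
    rw [abs_le]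
    constructor <;> linarith [h7.1, h7.2]

end

end Run7.h684.SO
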