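import Mathlib

/-!
# Selberg's orthogonality asymptotic and the line `Re s = 1`: definitions and pieces

Every `S_X` is a closed proposition; its proof is in its doc string.
-/

set_option autoImplicit false

open Complex Filter Topology

namespace Run7.h684.SO

noncomputable section

/-- Euler product data: `F(s) = ∏_p exp (∑_{l ≥ 1} b(p^l) p^(-ls))` for `Re s > 1`, `a(p) = b(p)` -/
structure Eul (a b : ℕ → ℂ) (F : ℂ → ℂ) : Prop where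
  ab : ∀ p : ℕ, p.Prime → a p = b p
  sum : ∀ s : ℂ, 1 < s.re → LSeriesSummable a s
  bnd : ∃ θ C : ℝ, θ < 1 / 2 ∧ 0 ≤ C ∧ ∀ p l : ℕ, p.Prime → 1 ≤ l → ‖b (p ^ l)‖ ≤ C * (p : ℝ) ^ ((l : ℝ) * θ)
  prod : ∀ s : ℂ, 1 < s.re → HasProd (fun p : Nat.Primes =>
    exp (∑' l : ℕ, b ((p : ℕ) ^ (l + 1)) * (((p : ℕ) ^ (l + 1) : ℕ) : ℂ) ^ (-s))) (F s)

/-- the point `1 + δ + i t` -/
def pt (δ t : ℝ) : ℂ := ((1 + δ : ℝ) : ℂ) + (t : ℂ) * I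

/-- the real part of the sum of `a(p) p^(-(1 + δ + i t))` -/
def PS (a : ℕ → ℂ) (δ t : ℝ) : ℝ := ∑' p : Nat.Primes, (a p * ((p : ℕ) : ℂ) ^ (-(pt δ t))).re

/-- the constant coefficients -/
def one : ℕ → ℂ := fun _ => 1

/-- `∑_p w(p) p^(-1-δ)` -/
def Lw (w : ℕ → ℝ) (δ : ℝ) : ℝ := ∑' p : Nat.Primes, w p * ((p : ℕ) : ℝ) ^ (-(1 + δ))

/-- `∑_{p ≤ x} w(p)/p` -/
def Sw (w : ℕ → ℝ) (x : ℝ) : ℝ := ∑ p ∈ (Finset.Icc 1 ⌊x⌋₊).filter Nat.Prime, w p / p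

/-- summability for all `δ > 0` -/
def Sm (w : ℕ → ℝ) : Prop := ∀ δ : ℝ, 0 < δ → Summable (fun p : Nat.Primes => w p * ((p : ℕ) : ℝ) ^ (-(1 + δ)))

/-- LOG: `log |F|` is the prime sum up to `O(1)`.

Let `s = pt δ t`, `σ = 1 + δ > 1`, `c_p = ∑_{l ≥ 0} b(p^(l+1)) p^(-(l+1)s)`. By `bnd`
`‖b(p^(l+1)) p^(-(l+1)s)‖ ≤ C (p^(θ-1))^(l+1)`, so the tail `l ≥ 1` has norm at most
`C (p^(θ-1))^2 / (1 - p^(θ-1)) ≤ C' p^(2θ-2)` (`p^(θ-1) ≤ 2^(-1/2)`; replace `θ` by `max θ 0`), summable over the primes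
as `2 - 2θ > 1`, with a bound independent of `s`. The term `l = 0` is `a(p) p^(-s)`, absolutely summable by `sum`
(restrict the sum over `ℕ` to the primes). Hence `∑_p c_p` converges absolutely, `∏ exp c_p = exp (∑ c_p)`
(`HasSum.cexp` and uniqueness), so `F s = exp (∑ c_p)`, `log ‖F s‖ = Re ∑ c_p`, which differs from `PS a δ t` by at most
`∑_p C' p^(2θ-2)`. -/
def S_LOG : Prop := ∀ (a b : ℕ → ℂ) (F : ℂ → ℂ), Eul a b F →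
  (∀ δ : ℝ, 0 < δ → Summable (fun p : Nat.Primes => ‖a p‖ * ((p : ℕ) : ℝ) ^ (-(1 + δ)))) ∧
  ∃ C : ℝ, ∀ δ t : ℝ, 0 < δ → F (pt δ t) ≠ 0 ∧ |Real.log ‖F (pt δ t)‖ - PS a δ t| ≤ C

/-- ORD: behaviour of `log |F|` near a point of order `n`.

By `meromorphicOrderAt_eq_int_iff` there is `g` analytic at `z0 = pt 0 t0` with `g z0 ≠ 0` and
`F z = (z - z0)^n • g z` for `z ≠ z0` near `z0`; at `z = pt δ t0` one has `z - z0 = δ`, so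
`log ‖F‖ = n log δ + log ‖g z‖` for `0 < δ ≤ δ0`, and `log ‖g z‖` is bounded near `z0`. For `δ0 ≤ δ ≤ 1` use compactness:
`δ ↦ log ‖F (pt δ t0)‖ - n log δ` is continuous. -/
def S_ORD : Prop := ∀ (F : ℂ → ℂ) (t0 : ℝ) (n : ℤ), MeromorphicAt F (pt 0 t0) →
  meromorphicOrderAt F (pt 0 t0) = n → (∀ δ : ℝ, 0 < δ → F (pt δ t0) ≠ 0) →
  (∀ δ : ℝ, 0 < δ → ContinuousAt F (pt δ t0)) →
  ∃ C : ℝ, ∀ δ : ℝ, 0 < δ → δ ≤ 1 → |Real.log ‖F (pt δ t0)‖ - n * Real.log δ| ≤ C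

/-- ZET: the case of the zeta function.

Apply `S_LOG` to `a = one`, `b n = Λ(n) / log n` (so `b(p^l) = 1/l`), `F = riemannZeta`: `prod` is
`riemannZeta_eulerProduct_hasProd` and `exp (∑ z^(l+1)/(l+1)) = (1 - z)⁻¹` (`Complex.hasSum_taylorSeries_neg_log`),
`z = p^(-s)`. Then `S_ORD` with `n = -1` at `1` (`riemannZeta_residue_one`: `(s - 1) ζ(s) → 1`; or directly: `log ‖δ ζ(1+δ)‖`
is bounded on `(0,1]`) and `n = 0` at `1 + it`, `t ≠ 0` (`riemannZeta_ne_zero_of_one_le_re`; or directly, the function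
`δ ↦ log ‖ζ(1+δ+it)‖` is continuous on `[0,1]`). -/
def S_ZET : Prop := Sm (fun _ => 1) ∧
  (∃ C : ℝ, ∀ δ : ℝ, 0 < δ → δ ≤ 1 → |PS one δ 0 + Real.log δ| ≤ C) ∧
  ∀ t : ℝ, t ≠ 0 → ∃ C : ℝ, ∀ δ : ℝ, 0 < δ → δ ≤ 1 → |PS one δ t| ≤ C

/-- TAU: from the Dirichlet series to the finite sums (a Tauberian lemma in one line).

For `x ≥ 0`: `|1_{x ≤ 1} - e^(-x)| ≤ 2 (e^(-x/2) - e^(-2x))` (put `y = e^(-x/2)`: for `x ≤ 1` it is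
`(1 - y)(1 + y) ≤ 2 y (1 - y)(1 + y + y²)`, true as `y ≥ e^(-1/2) > 0.6`; for `x > 1` it is `y² ≤ 2 y (1 - y³)`, true as
`y ≤ e^(-1/2) < 0.61`). Apply it with `x = log p / U`, `U = log X`, multiply by `w(p)/p ≥ 0` and sum over the primes:
`|Sw w X - Lw w (1/U)| ≤ 2 (Lw w (1/(2U)) - Lw w (2/U)) ≤ 2 (log 4 + 2C)` for `U ≥ 2` (for `2 ≤ X ≤ e²` everything is
bounded: `0 ≤ Sw w X ≤ Sw w (e²)` and `log log X` lies between `log log 2` and `log 2`). -/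
def S_TAU : Prop := ∀ w : ℕ → ℝ, (∀ n, 0 ≤ w n) → Sm w →
  (∃ C : ℝ, ∀ δ : ℝ, 0 < δ → δ ≤ 1 → |Lw w δ + Real.log δ| ≤ C) →
  ∃ C : ℝ, ∀ x : ℝ, 2 ≤ x → |Sw w x - Real.log (Real.log x)| ≤ C

/-- ABL: one-sided Abel summation.

Let `c(n) = (w1(n) - w2(n))/n` for primes `n`, `0` else, and `A(N) = ∑_{n ≤ N} c(n) = Sw w1 N - Sw w2 N ≤ C`
for `N ≥ 2` (and `A(0) = A(1) = 0`; we may take `C ≥ 0`). For `δ > 0`,
`∑_{n ≤ N} c(n) n^(-δ) = A(N) N^(-δ) + ∑_{n < N} A(n) (n^(-δ) - (n+1)^(-δ)) ≤ C`. Let `N → ∞`. -/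
def S_ABL : Prop := ∀ w1 w2 : ℕ → ℝ, Sm w1 → Sm w2 →
  (∃ C : ℝ, ∀ x : ℝ, 2 ≤ x → Sw w1 x - Sw w2 x ≤ C) →
  ∃ C : ℝ, ∀ δ : ℝ, 0 < δ → Lw w1 δ - Lw w2 δ ≤ C

/-- BES: expansion of the square.

For a prime `p` and `q = p^(-(1+δ))`, with `z_t = p^(it)` (of norm one, `conj z_t = p^(-it)`):
`‖a + ∑_t n_t z_t‖² q = ‖a‖² q + 2 ∑_t n_t Re (a p^(-(1+δ+it))) + ∑_{t,u} n_t n_u Re (p^(-(1+δ+i(t-u))))`.
Every term is summable over the primes (`‖a p‖²` by `Sm`, `‖a p‖` by hypothesis, constants by `S_ZET`'s first part,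
given as `Sm (fun _ => 1)`). -/
def S_BES : Prop := Sm (fun _ => 1) → ∀ (a : ℕ → ℂ) (J : Finset ℝ) (n : ℝ → ℤ),
  Sm (fun p => ‖a p‖ ^ 2) → Sm (fun p => ‖a p‖) →
  Sm (fun p => ‖a p + ∑ t ∈ J, (n t : ℂ) * (p : ℂ) ^ ((t : ℂ) * I)‖ ^ 2) ∧
  ∀ δ : ℝ, 0 < δ → Lw (fun p => ‖a p + ∑ t ∈ J, (n t : ℂ) * (p : ℂ) ^ ((t : ℂ) * I)‖ ^ 2) δ =
    Lw (fun p => ‖a p‖ ^ 2) δ + 2 * ∑ t ∈ J, (n t : ℝ) * PS a δ t +
      ∑ t ∈ J, ∑ u ∈ J, (n t : ℝ) * (n u : ℝ) * PS one δ (t - u)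

end

end Run7.h684.SO
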